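import Pool.Graph.R_pool_sql_team_seeded_b0a926ef.R523.Crit
import Pool.Graph.R_seed8.W472.AC.Digits
import Pool.Agent.H595.Dens.AlgV

/-!
# Two irreducible polynomials in two variables
-/

set_option autoImplicit false

namespace Pool.Agent.H595.Gel

open Polynomial Pool.Agent.R523.Gel Pool.Agent.V11210.EP Pool.Agent.H595.Alg

/-- the evaluation of the coefficients -/
noncomputable def ez (z : ℂ) : ℤ[X] →+* ℂ := (aeval z : ℤ[X] →ₐ[ℤ] ℂ).toRingHom

theorem ez_apply (z : ℂ) (p : ℤ[X]) : ez z p = aeval z p := rfl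

/-- the value at `(z, t)` -/
noncomputable def val (z t : ℂ) (P : ℤ[X][X]) : ℂ := P.eval₂ (ez z) t

theorem val_eq (z t : ℂ) (P : ℤ[X][X]) : val z t P = (P.map (ez z)).eval t := by
  rw [val, eval_map]

theorem val_mul (z t : ℂ) (P Q : ℤ[X][X]) : val z t (P * Q) = val z t P * val z t Q := by
  rw [val, eval₂_mul, val, val]

theorem val_C (z t : ℂ) (p : ℤ[X]) : val z t (C p) = aeval z p := by
  rw [val, eval₂_C, ez_apply]

/-- the height -/
noncomputable def bh (P : ℤ[X][X]) : ℕ := P.support.sup fun j => hgt (P.coeff j)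

theorem coeff_le_bh (P : ℤ[X][X]) (j i : ℕ) : |((P.coeff j).coeff i : ℝ)| ≤ bh P := by
  by_cases h : j ∈ P.support
  · have h1 : hgt (P.coeff j) ≤ bh P := Finset.le_sup (f := fun j => hgt (P.coeff j)) h
    exact (coeff_le_hgt _ _).trans (by exact_mod_cast h1)
  · rw [notMem_support_iff.1 h]
    simp

theorem bh_le {P : ℤ[X][X]} {H : ℝ} (hH : 0 ≤ H) (h : ∀ j i, |((P.coeff j).coeff i : ℝ)| ≤ H) :
    (bh P : ℝ) ≤ H := by
  rw [← Nat.le_floor_iff hH]
  apply Finset.sup_le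
  intro j _
  rw [Nat.le_floor_iff hH]
  exact hgt_le hH (h j)

theorem one_le_bh {P : ℤ[X][X]} (h : P ≠ 0) : 1 ≤ bh P := by
  have h1 : P.natDegree ∈ P.support := natDegree_mem_support_of_nonzero h
  have h2 : P.coeff P.natDegree ≠ 0 := by
    rwa [mem_support_iff] at h1
  exact (one_le_hgt h2).trans (Finset.le_sup (f := fun j => hgt (P.coeff j)) h1)

theorem res_scaled (m n : ℕ) (hmn : 0 < m + n) {B T : ℝ} (hB : 1 ≤ B) (hT : 1 ≤ T) (f g : ℂ[X])
    (hf : f.natDegree ≤ m) (hg : g.natDegree ≤ n) {F G : ℝ} (hF : 0 < F) (hG : 0 < G)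
    (hfB : ∀ i, ‖f.coeff i‖ ≤ B * F) (hgB : ∀ i, ‖g.coeff i‖ ≤ B * G) {t : ℂ} (ht : ‖t‖ ≤ T) {ε : ℝ}
    (hfε : ‖f.eval t‖ ≤ ε * F) (hgε : ‖g.eval t‖ ≤ ε * G) :
    ‖resultant f g m n‖ ≤ ((m + n) * T ^ (m + n) * ((m + n).factorial * B ^ (m + n - 1))) *
      (F ^ n * G ^ m * ε) := by
  have hFc : (F : ℂ) ≠ 0 := by exact_mod_cast hF.ne'
  have hGc : (G : ℂ) ≠ 0 := by exact_mod_cast hG.ne'
  obtain ⟨f', hf'⟩ : ∃ f' : ℂ[X], f' = C ((F : ℂ)⁻¹) * f := ⟨_, rfl⟩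
  obtain ⟨g', hg'⟩ : ∃ g' : ℂ[X], g' = C ((G : ℂ)⁻¹) * g := ⟨_, rfl⟩
  have ef : f = C (F : ℂ) * f' := by
    rw [hf', ← mul_assoc, ← C_mul, mul_inv_cancel₀ hFc, C_1, one_mul]
  have eg : g = C (G : ℂ) * g' := by
    rw [hg', ← mul_assoc, ← C_mul, mul_inv_cancel₀ hGc, C_1, one_mul]
  have nF : ‖((F : ℂ)⁻¹)‖ = F⁻¹ := by rw [norm_inv, Complex.norm_real, Real.norm_eq_abs, abs_of_pos hF]
  have nG : ‖((G : ℂ)⁻¹)‖ = G⁻¹ := by rw [norm_inv, Complex.norm_real, Real.norm_eq_abs, abs_of_pos hG]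
  have h1 := res_le f' g' m n (by rw [hf']; exact (natDegree_C_mul_le _ _).trans hf)
    (by rw [hg']; exact (natDegree_C_mul_le _ _).trans hg) hmn B T ε hB
    (fun i => by
      rw [hf', coeff_C_mul, norm_mul, nF, inv_mul_le_iff₀ hF]
      linarith [hfB i])
    (fun i => by
      rw [hg', coeff_C_mul, norm_mul, nG, inv_mul_le_iff₀ hG]
      linarith [hgB i]) t hT ht
    (by
      rw [hf', eval_mul, eval_C, norm_mul, nF, inv_mul_le_iff₀ hF]
      linarith)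
    (by
      rw [hg', eval_mul, eval_C, norm_mul, nG, inv_mul_le_iff₀ hG]
      linarith)
  rw [ef, eg, resultant_C_mul_left, resultant_C_mul_right, norm_mul, norm_mul, norm_pow, norm_pow,
    Complex.norm_real, Complex.norm_real, Real.norm_eq_abs, Real.norm_eq_abs, abs_of_pos hF, abs_of_pos hG]
  calc F ^ n * (G ^ m * ‖resultant f' g' m n‖) ≤ F ^ n * (G ^ m * ((m + n) * (T ^ (m + n) * ε) *
        ((m + n).factorial * B ^ (m + n - 1)))) := by gcongr
    _ = _ := by ring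

theorem not_assoc {P Q : ℤ[X][X]} (h : bh P ≠ bh Q) : ¬ Associated P Q := by
  rintro ⟨u, hu⟩
  apply h
  obtain ⟨r, hr, hr'⟩ := Polynomial.isUnit_iff.1 u.isUnit
  obtain ⟨s, hs, hs'⟩ := Polynomial.isUnit_iff.1 hr
  have hcoef : ∀ j i, (Q.coeff j).coeff i = (P.coeff j).coeff i * s := by
    intro j i
    rw [← hu, ← hr', coeff_mul_C, ← hs', coeff_mul_C]
  have habs : ∀ j i, |((Q.coeff j).coeff i : ℝ)| = |((P.coeff j).coeff i : ℝ)| := by
    intro j i
    have h1 : ((Q.coeff j).coeff i).natAbs = ((P.coeff j).coeff i).natAbs := by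
      rw [hcoef, Int.natAbs_mul, Int.isUnit_iff_natAbs_eq.1 hs, mul_one]
    rw [← Int.cast_abs, ← Int.cast_abs, Int.abs_eq_natAbs, Int.abs_eq_natAbs, h1]
  apply le_antisymm
  · have h1 : (bh P : ℝ) ≤ bh Q := bh_le (Nat.cast_nonneg _) (fun j i => by
      rw [← habs]
      exact coeff_le_bh Q j i)
    exact_mod_cast h1
  · have h1 : (bh Q : ℝ) ≤ bh P := bh_le (Nat.cast_nonneg _) (fun j i => by
      rw [habs]
      exact coeff_le_bh P j i)
    exact_mod_cast h1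

theorem coeff_map_le {m : ℕ} {P : ℤ[X][X]} (hm : ∀ j, (P.coeff j).natDegree ≤ m) {w : ℂ} {W : ℝ} (hW : 1 ≤ W)
    (hw : ‖w‖ ≤ W) (i : ℕ) : ‖(P.map (ez w)).coeff i‖ ≤ ((m + 1) * W ^ m) * bh P := by
  rw [coeff_map, ez_apply]
  refine (aeval_le w m (P.coeff i) (hm i) (bh P) (coeff_le_bh P i)).trans ?_
  have h1 : max 1 ‖w‖ ^ m ≤ W ^ m := pow_le_pow_left₀ (by positivity) (max_le hW hw) m
  calc ((m : ℝ) + 1) * bh P * max 1 ‖w‖ ^ m ≤ ((m : ℝ) + 1) * bh P * W ^ m := by gcongr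
    _ = _ := by ring

theorem eval_one_le {n : ℕ} {f : ℂ[X]} (hn : f.natDegree ≤ n) {B : ℝ} (hB : ∀ i, ‖f.coeff i‖ ≤ B) :
    ‖f.eval 1‖ ≤ (n + 1) * B := by
  rw [eval_eq_sum_range' (show f.natDegree < n + 1 by omega)]
  refine (norm_sum_le _ _).trans ?_
  calc ∑ i ∈ Finset.range (n + 1), ‖f.coeff i * 1 ^ i‖ ≤ ∑ _i ∈ Finset.range (n + 1), B := by
        apply Finset.sum_le_sum
        intro i _
        rw [one_pow, mul_one]
        exact hB i
    _ = _ := by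
        rw [Finset.sum_const, Finset.card_range, nsmul_eq_mul]
        push_cast
        ring

/-- **Two irreducible polynomials.** -/
theorem two (z : ℝ) (t : ℂ) (m n : ℕ) (hn : 1 ≤ n) {κ c : ℝ} (hκ : 0 ≤ κ) (hc : 0 < c)
    (hM : Pool.Agent.W472.AC.MeasP z (2 * n * m) κ c) :
    ∃ c' : ℝ, 0 < c' ∧ ∀ P Q : ℤ[X][X], Irreducible P → Irreducible Q →
      (∀ j, (P.coeff j).natDegree ≤ m) → (∀ j, (Q.coeff j).natDegree ≤ m) → P.natDegree ≤ n → Q.natDegree ≤ n →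
      bh P ≠ bh Q → c' ≤ ((bh P : ℝ) * bh Q) ^ ((n : ℝ) * κ + (n - 1)) *
        (‖val z t P‖ * bh Q + ‖val z t Q‖ * bh P) := by
  obtain ⟨N, hN⟩ : ∃ N : ℕ, N = 2 * n * m := ⟨_, rfl⟩
  have hmN : m ≤ N := by
    rw [hN]
    nlinarith
  rw [← hN] at hM
  have hn' : (1 : ℝ) ≤ n := by exact_mod_cast hn
  obtain ⟨C1, hC1, hcoef⟩ := coeff_le_values N
  obtain ⟨W, hW⟩ : ∃ W : ℝ, W = 1 + N + ‖(z : ℂ)‖ := ⟨_, rfl⟩
  have hz0 := norm_nonneg (z : ℂ)
  have hN0 : (0 : ℝ) ≤ N := Nat.cast_nonneg N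
  have hW1 : 1 ≤ W := by rw [hW]; linarith
  obtain ⟨B, hBd⟩ : ∃ B : ℝ, B = (m + 1) * W ^ m := ⟨_, rfl⟩
  have hWm : 1 ≤ W ^ m := one_le_pow₀ hW1
  have hB1 : 1 ≤ B := by
    have : (0 : ℝ) ≤ m := Nat.cast_nonneg m
    rw [hBd]
    nlinarith
  obtain ⟨T, hT⟩ : ∃ T : ℝ, T = 1 + ‖t‖ := ⟨_, rfl⟩
  have ht0 := norm_nonneg t
  have hT1 : 1 ≤ T := by rw [hT]; linarith
  obtain ⟨K, hK⟩ : ∃ K : ℝ, K = ((n + n) * T ^ (n + n) * ((n + n).factorial * B ^ (n + n))) * ((n + 1) * B) :=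
    ⟨_, rfl⟩
  have hfact : (1 : ℝ) ≤ ((n + n).factorial : ℝ) := by exact_mod_cast Nat.one_le_iff_ne_zero.2 (Nat.factorial_ne_zero _)
  have hTn : 1 ≤ T ^ (n + n) := one_le_pow₀ hT1
  have hBn : 1 ≤ B ^ (n + n) := one_le_pow₀ hB1
  have hK0 : 0 < K := by rw [hK]; positivity
  -- the general bound
  have gen : ∀ p q : ℕ, p ≤ n → q ≤ n → 0 < p + q → ∀ T' : ℝ, 1 ≤ T' → T' ≤ T → ∀ ε : ℝ, 0 ≤ ε → ∀ x : ℂ, ‖x‖ ≤ T' →
      ∀ f g : ℂ[X], f.natDegree ≤ p → g.natDegree ≤ q → ∀ F G : ℝ, 1 ≤ F → 1 ≤ G →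
      (∀ i, ‖f.coeff i‖ ≤ B * F) → (∀ i, ‖g.coeff i‖ ≤ B * G) → ‖f.eval x‖ ≤ ε * F → ‖g.eval x‖ ≤ ε * G →
      ‖resultant f g p q‖ ≤ ((n + n) * T ^ (n + n) * ((n + n).factorial * B ^ (n + n))) * ((F * G) ^ n * ε) := by
    intro p q hp hq hpq T' hT' hTT ε hε x hx f g hf hg F G hF hG hfB hgB hfε hgε
    have hF0 : 0 < F := by linarith
    have hG0 : 0 < G := by linarith
    refine (res_scaled p q hpq hB1 hT' f g hf hg hF0 hG0 hfB hgB hx hfε hgε).trans ?_
    have h1 : F ^ q ≤ F ^ n := pow_le_pow_right₀ hF hq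
    have h2 : G ^ p ≤ G ^ n := pow_le_pow_right₀ hG hp
    have h3 : T' ^ (p + q) ≤ T ^ (n + n) :=
      (pow_le_pow_left₀ (by linarith) hTT _).trans (pow_le_pow_right₀ hT1 (by omega))
    have h4 : B ^ (p + q - 1) ≤ B ^ (n + n) := pow_le_pow_right₀ hB1 (by omega)
    have h5 : ((p + q).factorial : ℝ) ≤ ((n + n).factorial : ℝ) := by
      exact_mod_cast Nat.factorial_le (by omega)
    have h6 : (p : ℝ) + q ≤ (n : ℝ) + n := by
      have hp' : (p : ℝ) ≤ n := by exact_mod_cast hp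
      have hq' : (q : ℝ) ≤ n := by exact_mod_cast hq
      linarith
    rw [mul_pow]
    gcongr
  refine ⟨min c (c / ((C1 * K) ^ κ * K)), lt_min hc (by positivity), ?_⟩
  intro P Q hP hQ hPm hQm hPn hQn hne
  have hbP : (1 : ℝ) ≤ bh P := by exact_mod_cast one_le_bh hP.ne_zero
  have hbQ : (1 : ℝ) ≤ bh Q := by exact_mod_cast one_le_bh hQ.ne_zero
  obtain ⟨G, hG⟩ : ∃ G : ℝ, G = (bh P : ℝ) * bh Q := ⟨_, rfl⟩
  have hG1 : 1 ≤ G := by rw [hG]; nlinarith
  have hG0 : 0 < G := by linarith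
  have hvP := norm_nonneg (val z t P)
  have hvQ := norm_nonneg (val z t Q)
  obtain ⟨S, hS⟩ : ∃ S : ℝ, S = ‖val z t P‖ * bh Q + ‖val z t Q‖ * bh P := ⟨_, rfl⟩
  rw [← hG, ← hS]
  -- polynomials in `z` only
  have const : ∀ R : ℤ[X][X], Irreducible R → (∀ j, (R.coeff j).natDegree ≤ m) → R.natDegree = 0 →
      c ≤ (bh R : ℝ) ^ κ * ‖val z t R‖ := by
    intro R hR hRm h0
    obtain ⟨r, hr⟩ := natDegree_eq_zero.1 h0
    have hr0 : r ≠ 0 := by
      rintro rfl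
      rw [C_0] at hr
      exact hR.ne_zero hr.symm
    have hcr : R.coeff 0 = r := by rw [← hr, coeff_C_zero]
    have h1 := hM r hr0 ((by rw [← hcr]; exact hRm 0 : r.natDegree ≤ m).trans hmN) (bh R)
      (by exact_mod_cast one_le_bh hR.ne_zero) (fun i => by rw [← hcr]; exact coeff_le_bh R 0 i)
    have h2 : ‖val z t R‖ = |aeval z r| := by
      rw [← hr, val_C, cast_aeval, Complex.norm_real, Real.norm_eq_abs]
    rw [h2]
    exact h1
  have hexp : κ ≤ (n : ℝ) * κ + (n - 1) := by nlinarith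
  by_cases hP0 : P.natDegree = 0
  · refine (min_le_left _ _).trans ?_
    have h1 := const P hP hPm hP0
    calc c ≤ (bh P : ℝ) ^ κ * ‖val z t P‖ := h1
      _ ≤ G ^ ((n : ℝ) * κ + (n - 1)) * S := by
          have h2 : (bh P : ℝ) ^ κ ≤ G ^ κ := by
            apply Real.rpow_le_rpow (by linarith) _ hκ
            rw [hG]
            nlinarith
          have h3 : G ^ κ ≤ G ^ ((n : ℝ) * κ + (n - 1)) := Real.rpow_le_rpow_of_exponent_le hG1 hexp
          have h4 : ‖val z t P‖ ≤ S := by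
            rw [hS]
            nlinarith
          exact mul_le_mul (h2.trans h3) h4 hvP (by positivity)
  by_cases hQ0 : Q.natDegree = 0
  · refine (min_le_left _ _).trans ?_
    have h1 := const Q hQ hQm hQ0
    calc c ≤ (bh Q : ℝ) ^ κ * ‖val z t Q‖ := h1
      _ ≤ G ^ ((n : ℝ) * κ + (n - 1)) * S := by
          have h2 : (bh Q : ℝ) ^ κ ≤ G ^ κ := by
            apply Real.rpow_le_rpow (by linarith) _ hκ
            rw [hG]
            nlinarith
          have h3 : G ^ κ ≤ G ^ ((n : ℝ) * κ + (n - 1)) := Real.rpow_le_rpow_of_exponent_le hG1 hexp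
          have h4 : ‖val z t Q‖ ≤ S := by
            rw [hS]
            nlinarith
          exact mul_le_mul (h2.trans h3) h4 hvQ (by positivity)
  -- the resultant
  obtain ⟨R, hR⟩ : ∃ R : ℤ[X], R = resultant P Q P.natDegree Q.natDegree := ⟨_, rfl⟩
  have hndvd : ¬ Q ∣ P := by
    intro hd
    have h1 : Associated Q P := (hQ.dvd_irreducible_iff_associated hP).1 hd
    exact not_assoc hne h1.symm
  have hR0 : R ≠ 0 := by
    rw [hR]
    exact res_ne P Q hQ (Nat.pos_of_ne_zero hQ0) hndvd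
  have hRd : R.natDegree ≤ N := by
    rw [hR, resultant]
    refine (natDegree_det_le' _ m ?_).trans ?_
    · intro i j
      unfold sylvester
      simp only [Matrix.of_apply]
      refine Fin.addCases (fun j1 => ?_) (fun j1 => ?_) j
      · rw [Fin.addCases_left]
        split_ifs
        · exact hQm _
        · simp
      · rw [Fin.addCases_right]
        split_ifs
        · exact hPm _
        · simp
    · rw [hN]
      apply Nat.mul_le_mul_right
      omega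
  have hval : ∀ w : ℂ, aeval w R = resultant (P.map (ez w)) (Q.map (ez w)) P.natDegree Q.natDegree := by
    intro w
    rw [hR, resultant_map_map]
    rfl
  have hmapn : ∀ (w : ℂ) (U : ℤ[X][X]), (U.map (ez w)).natDegree ≤ U.natDegree := fun w U => natDegree_map_le
  have hpq : 0 < P.natDegree + Q.natDegree := by omega
  have hvals : ∀ k ≤ N, ‖aeval (k : ℂ) R‖ ≤ K * G ^ n := by
    intro k hk
    have hkW : ‖(k : ℂ)‖ ≤ W := by
      rw [Complex.norm_natCast, hW]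
      have : (k : ℝ) ≤ N := by exact_mod_cast hk
      linarith
    have cP := fun i => coeff_map_le hPm hW1 hkW i
    have cQ := fun i => coeff_map_le hQm hW1 hkW i
    rw [← hBd] at cP cQ
    have h1 := gen P.natDegree Q.natDegree hPn hQn hpq 1 le_rfl hT1 ((n + 1) * B) (by positivity) 1 (by simp)
      (P.map (ez k)) (Q.map (ez k)) (hmapn _ _) (hmapn _ _) (bh P) (bh Q) hbP hbQ cP cQ
      ((eval_one_le ((hmapn _ _).trans hPn) cP).trans (le_of_eq (by ring)))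
      ((eval_one_le ((hmapn _ _).trans hQn) cQ).trans (le_of_eq (by ring)))
    rw [hval, ← hG] at *
    refine h1.trans (le_of_eq ?_)
    rw [hK]
    ring
  have hcf := hcoef R hRd (K * G ^ n) (by positivity) hvals
  have hGn : 1 ≤ G ^ n := one_le_pow₀ hG1
  have hK1 : 1 ≤ K := by
    have e1 : (1 : ℝ) ≤ (n : ℝ) + n := by linarith
    have e2 : (1 : ℝ) ≤ (n + n) * T ^ (n + n) := by nlinarith
    have e3 : (1 : ℝ) ≤ (n + n).factorial * B ^ (n + n) := by nlinarith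
    have e4 : (1 : ℝ) ≤ (n + 1) * B := by nlinarith
    have e5 : (1 : ℝ) ≤ ((n + n) * T ^ (n + n)) * ((n + n).factorial * B ^ (n + n)) := by nlinarith
    rw [hK]
    nlinarith
  have hKG : 1 ≤ K * G ^ n := by nlinarith
  have hm := hM R hR0 hRd (C1 * (K * G ^ n)) (by nlinarith) hcf
  -- the value at `z`
  have hzW : ‖(z : ℂ)‖ ≤ W := by rw [hW]; linarith
  have cP := fun i => coeff_map_le hPm hW1 hzW i
  have cQ := fun i => coeff_map_le hQm hW1 hzW i
  rw [← hBd] at cP cQ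
  have hS0 : 0 ≤ S := by rw [hS]; positivity
  have h2 := gen P.natDegree Q.natDegree hPn hQn hpq T hT1 le_rfl (S / G) (by positivity) t (by rw [hT]; linarith)
    (P.map (ez z)) (Q.map (ez z)) (hmapn _ _) (hmapn _ _) (bh P) (bh Q) hbP hbQ cP cQ
    (by
      rw [← val_eq, hG, div_mul_eq_mul_div, le_div_iff₀ (by positivity), hS]
      have e1 : 0 ≤ ‖val z t Q‖ * bh P * bh P := by positivity
      nlinarith)
    (by
      rw [← val_eq, hG, div_mul_eq_mul_div, le_div_iff₀ (by positivity), hS]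
      have e1 : 0 ≤ ‖val z t P‖ * bh Q * bh Q := by positivity
      nlinarith)
  rw [← hval, ← hG] at h2
  have h3 : ‖aeval (z : ℂ) R‖ ≤ K * (G ^ n * (S / G)) := by
    refine h2.trans ?_
    rw [hK]
    have e1 : (1 : ℝ) ≤ (n + 1) * B := by nlinarith
    have e2 : 0 ≤ ((n : ℝ) + n) * T ^ (n + n) * ((n + n).factorial * B ^ (n + n)) * (G ^ n * (S / G)) := by positivity
    nlinarith
  rw [cast_aeval, Complex.norm_real, Real.norm_eq_abs] at h3
  refine (min_le_right _ _).trans ?_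
  rw [div_le_iff₀ (by positivity)]
  calc c ≤ (C1 * (K * G ^ n)) ^ κ * |aeval z R| := hm
    _ ≤ (C1 * (K * G ^ n)) ^ κ * (K * (G ^ n * (S / G))) := by gcongr
    _ = G ^ ((n : ℝ) * κ + (n - 1)) * S * ((C1 * K) ^ κ * K) := by
        rw [← mul_assoc C1, Real.mul_rpow (by positivity) (by positivity), ← Real.rpow_natCast G n,
          ← Real.rpow_mul hG0.le]
        have e1 : G ^ ((n : ℝ) * κ + (n - 1)) = G ^ ((n : ℝ) * κ) * (G ^ (n : ℝ) / G) := by
          rw [Real.rpow_add hG0, Real.rpow_sub hG0, Real.rpow_one]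
        rw [e1]
        ring

end Pool.Agent.H595.Gel
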