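import Pool.Agent.H595.Gel.Gel1
import Pool.Agent.H595.Dens.AlgX

/-!
# The density of the scales with near algebraic relations between `z` and `t`
-/

set_option autoImplicit false

namespace Pool.Agent.H595.Gel

open Polynomial MeasureTheory Filter Topology Set Pool.Agent.H595.Dens Pool.Agent.R523.Gel Pool.Agent.H595.Alg

/-- irreducible polynomials of bounded degrees -/
def BP (m n : ℕ) : Type := {P : ℤ[X][X] // Irreducible P ∧ (∀ j, (P.coeff j).natDegree ≤ m) ∧ P.natDegree ≤ n}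

noncomputable def gX {m n : ℕ} (P : BP m n) : ℝ := Real.log (bh P.1)

noncomputable def gL {m n : ℕ} (z t : ℂ) (P : BP m n) : ℝ := -Real.log ‖val z t P.1‖

theorem bh_pos {m n : ℕ} (P : BP m n) : (1 : ℝ) ≤ bh P.1 := by exact_mod_cast one_le_bh P.2.1.ne_zero

theorem exp_gX {m n : ℕ} (P : BP m n) : Real.exp (gX P) = bh P.1 := by
  rw [gX, Real.exp_log]
  have := bh_pos P
  linarith

/-- no polynomial relation of bounded degrees -/
def NoRel (m n : ℕ) (z t : ℂ) : Prop := ∀ P : ℤ[X][X], P ≠ 0 → (∀ j, (P.coeff j).natDegree ≤ m) → P.natDegree ≤ n →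
  val z t P ≠ 0

theorem val_pos {m n : ℕ} {z t : ℂ} (h : NoRel m n z t) (P : BP m n) : 0 < ‖val z t P.1‖ :=
  norm_pos_iff.2 (h P.1 P.2.1.ne_zero P.2.2.1 P.2.2.2)

theorem exp_gL {m n : ℕ} {z t : ℂ} (h : NoRel m n z t) (P : BP m n) : Real.exp (-gL z t P) = ‖val z t P.1‖ := by
  rw [gL, neg_neg, Real.exp_log (val_pos h P)]

theorem finite_gX {m n : ℕ} (B : ℝ) : {P : BP m n | gX P ≤ B}.Finite := by
  obtain ⟨N, hN⟩ := exists_nat_ge (Real.exp B)
  have h2 : (Set.pi (Set.univ : Set (Fin (m + 1) × Fin (n + 1))) fun _ => Set.Icc (-(N : ℤ)) N).Finite :=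
    Set.Finite.pi fun _ => Set.finite_Icc _ _
  refine Set.Finite.of_finite_image (f := fun (P : BP m n) (i : Fin (m + 1) × Fin (n + 1)) =>
    (P.1.coeff i.2).coeff i.1) (h2.subset ?_) ?_
  · rintro _ ⟨A, hA, rfl⟩ i -
    have h3 : |((A.1.coeff i.2).coeff i.1 : ℝ)| ≤ N := by
      refine (coeff_le_bh A.1 i.2 i.1).trans ?_
      have h4 := Real.exp_le_exp.2 (show gX A ≤ B from hA)
      rw [exp_gX] at h4
      exact h4.trans hN
    rw [abs_le] at h3
    constructor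
    · have := h3.1
      exact_mod_cast this
    · have := h3.2
      exact_mod_cast this
  · intro A _ B _ hAB
    apply Subtype.ext
    ext j i
    by_cases hj : j ≤ n
    · by_cases hi : i ≤ m
      · exact congrFun hAB (⟨i, by omega⟩, ⟨j, by omega⟩)
      · have hA := A.2.2.1 j
        have hB := B.2.2.1 j
        rw [coeff_eq_zero_of_natDegree_lt (by omega), coeff_eq_zero_of_natDegree_lt (by omega)]
    · have hA := A.2.2.2
      have hB := B.2.2.2
      rw [coeff_eq_zero_of_natDegree_lt (show A.1.natDegree < j by omega),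
        coeff_eq_zero_of_natDegree_lt (show B.1.natDegree < j by omega)]

/-- the scales with a near relation given by an irreducible polynomial -/
def irrScales (m n : ℕ) (z t : ℂ) (w : ℝ) : Set ℝ := {x | ∃ P : ℤ[X][X], Irreducible P ∧
  (∀ j, (P.coeff j).natDegree ≤ m) ∧ P.natDegree ≤ n ∧ (∀ j i, |((P.coeff j).coeff i : ℝ)| ≤ Real.exp x) ∧
  ‖val z t P‖ ≤ Real.exp x ^ (-w)}

theorem irrScales_eq {m n : ℕ} {z t : ℂ} (h : NoRel m n z t) (w : ℝ) :
    irrScales m n z t w = goodScales (gX (m := m) (n := n)) (gL z t) w := by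
  ext x
  constructor
  · rintro ⟨P, h1, h2, h3, h4, h5⟩
    refine ⟨⟨P, h1, h2, h3⟩, ?_, ?_⟩
    · rw [← Real.exp_le_exp, exp_gX]
      exact bh_le (Real.exp_pos _).le h4
    · rw [← neg_le_neg_iff, ← Real.exp_le_exp, exp_gL h]
      rw [← Real.exp_mul] at h5
      have e1 : x * -w = -(w * x) := by ring
      rw [e1] at h5
      exact h5
  · rintro ⟨P, h1, h2⟩
    refine ⟨P.1, P.2.1, P.2.2.1, P.2.2.2, fun j i => ?_, ?_⟩
    · rw [← Real.exp_le_exp, exp_gX] at h1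
      exact (coeff_le_bh P.1 j i).trans h1
    · rw [← neg_le_neg_iff, ← Real.exp_le_exp, exp_gL h] at h2
      rw [← Real.exp_mul]
      have e1 : -(w * x) = x * -w := by ring
      rw [e1] at h2
      exact h2

theorem bound {z : ℝ} {t : ℂ} {m n : ℕ} (hn : 1 ≤ n) {κ c : ℝ} (hκ : 0 ≤ κ) (hc : 0 < c)
    (hM : Pool.Agent.W472.AC.MeasP z (2 * n * m) κ c) (h : NoRel m n z t) :
    ∃ C : ℝ, ∀ u v : BP m n, gX u < gX v → gL z t u < gL z t v →
      gL z t u ≤ (n * κ + n) * gX v + (n * κ + (n - 1)) * gX u + C := by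
  obtain ⟨c', hc', h2⟩ := two z t m n hn hκ hc hM
  refine ⟨Real.log 2 - Real.log c', fun u v h3 h4 => ?_⟩
  have hu := val_pos h u
  have hv := val_pos h v
  have hbu := bh_pos u
  have hbv := bh_pos v
  have hne : bh u.1 ≠ bh v.1 := by
    intro h5
    rw [gX, gX, h5] at h3
    exact lt_irrefl _ h3
  have hlt : ‖val z t v.1‖ < ‖val z t u.1‖ := by
    rw [← exp_gL h v, ← exp_gL h u]
    exact Real.exp_lt_exp.2 (by linarith)
  have hlt2 : (bh u.1 : ℝ) < bh v.1 := by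
    rw [← exp_gX v, ← exp_gX u]
    exact Real.exp_lt_exp.2 h3
  have h5 := h2 u.1 v.1 u.2.1 v.2.1 u.2.2.1 v.2.2.1 u.2.2.2 v.2.2.2 hne
  have h6 : ‖val z t u.1‖ * bh v.1 + ‖val z t v.1‖ * bh u.1 ≤ 2 * (‖val z t u.1‖ * bh v.1) := by nlinarith
  have h7 := h5.trans (mul_le_mul_of_nonneg_left h6 (by positivity))
  have h8 := Real.log_le_log hc' h7
  have hu0 : (0 : ℝ) < bh u.1 := by linarith
  have hv0 : (0 : ℝ) < bh v.1 := by linarith
  rw [Real.log_mul (by positivity) (by positivity), Real.log_rpow (by positivity),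
    Real.log_mul hu0.ne' hv0.ne', Real.log_mul (by norm_num) (by positivity), Real.log_mul hu.ne' hv0.ne'] at h8
  simp only [gL, gX]
  linarith

/-- **The density for irreducible polynomials.** -/
theorem irr_upper {z : ℝ} {t : ℂ} {m n : ℕ} (hn : 1 ≤ n) {κ : ℝ} (hκ : 0 ≤ κ)
    (hM : ∀ ε : ℝ, 0 < ε → ∃ c : ℝ, 0 < c ∧ Pool.Agent.W472.AC.MeasP z (2 * n * m) (κ + ε) c)
    (h : NoRel m n z t) {w : ℝ} (hw : 2 * n * (κ + 1) - 1 < w) :
    lowerDensity (irrScales m n z t w) ≤ n * (κ + 1) / w := by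
  have hn' : (1 : ℝ) ≤ n := by exact_mod_cast hn
  have hw0 : 0 < w := by nlinarith
  rw [irrScales_eq h]
  refine dens_simple (A := n * (κ + 1)) (B := n * (κ + 1) - 1) hw0 (by positivity) (by linarith) finite_gX
    (fun ε hε => ?_)
  obtain ⟨c, hc, hM'⟩ := hM (ε / n) (by positivity)
  obtain ⟨C, hC⟩ := bound (z := z) hn (by positivity) hc hM' h
  refine ⟨C, fun u v h1 h2 _ _ => (hC u v h1 h2).trans (le_of_eq ?_)⟩
  have e1 : (n : ℝ) * (κ + ε / n) = n * κ + ε := by field_simp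
  rw [e1]
  ring

/-- the scales with a near relation -/
def relScales (m n : ℕ) (z t : ℂ) (w : ℝ) : Set ℝ := {x | ∃ P : ℤ[X][X], P ≠ 0 ∧
  (∀ j, (P.coeff j).natDegree ≤ m) ∧ P.natDegree ≤ n ∧ (∀ j i, |((P.coeff j).coeff i : ℝ)| ≤ Real.exp x) ∧
  ‖val z t P‖ ≤ Real.exp x ^ (-w)}

theorem exists_factor {z t : ℂ} {m n : ℕ} {P : ℤ[X][X]} (hP : P ≠ 0) (hm : ∀ j, (P.coeff j).natDegree ≤ m)
    (hn : P.natDegree ≤ n) {r : ℝ} (hr : 0 < r) (hr1 : r ≤ 1) (h : ‖val z t P‖ < r ^ (m + n)) :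
    ∃ Q : ℤ[X][X], Irreducible Q ∧ Q ∣ P ∧ ‖val z t Q‖ < r := by
  by_contra hcon
  push Not at hcon
  have h1 := Ph_ge (eval₂RingHom (ez z) t) m 0 le_rfl r hr hr1 P hP (fun Q hQ hQP _ => by
    rw [Ph, Real.rpow_zero, mul_one]
    exact hcon Q hQ hQP)
  rw [Ph, Real.rpow_zero, mul_one] at h1
  have h2 : r ^ (m + n) ≤ r ^ (P.natDegree + xd P) := by
    apply pow_le_pow_of_le_one hr.le hr1
    have := xd_le P m hm
    omega
  have h3 : ‖val z t P‖ = ‖(eval₂RingHom (ez z) t) P‖ := rfl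
  linarith

theorem dvd_degrees {m n : ℕ} {P Q : ℤ[X][X]} (hP : P ≠ 0) (hQ : Q ∣ P) (hm : ∀ j, (P.coeff j).natDegree ≤ m)
    (hn : P.natDegree ≤ n) : (∀ j, (Q.coeff j).natDegree ≤ m) ∧ Q.natDegree ≤ n := by
  obtain ⟨G, rfl⟩ := hQ
  have hQ0 : Q ≠ 0 := left_ne_zero_of_mul hP
  have hG0 : G ≠ 0 := right_ne_zero_of_mul hP
  have h1 := xd_le _ m hm
  rw [xd_mul _ _ hQ0 hG0] at h1
  rw [natDegree_mul hQ0 hG0] at hn
  exact ⟨fun j => (coeff_le_xd Q j).trans (by omega), by omega⟩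

theorem dvd_height {m n : ℕ} {P Q : ℤ[X][X]} (hP : P ≠ 0) (hQ : Q ∣ P) (hm : ∀ j, (P.coeff j).natDegree ≤ m)
    (hn : P.natDegree ≤ n) {H : ℝ} (hH : ∀ j i, |((P.coeff j).coeff i : ℝ)| ≤ H) (j i : ℕ) :
    |((Q.coeff j).coeff i : ℝ)| ≤ (2 ^ (m + (m + 1) * n) * ((m + (m + 1) * n + 1 : ℕ) : ℝ)) * H := by
  obtain ⟨h1, h2⟩ := dvd_degrees hP hQ hm hn
  refine (coeff_le_MM m n Q (xd_le Q m h1) h2 j i).trans ?_
  rw [mul_assoc]
  gcongr
  refine le_trans ?_ (MM_le m n P (xd_le P m hm) hn H hH)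
  obtain ⟨G, rfl⟩ := hQ
  rw [MM_mul]
  have hG0 : G ≠ 0 := right_ne_zero_of_mul hP
  have h3 : xd G ≤ m := by
    have := xd_le _ m hm
    rw [xd_mul _ _ (left_ne_zero_of_mul hP) hG0] at this
    omega
  have h4 := one_le_MM m G hG0 h3
  have h5 := MM_nonneg m Q
  nlinarith

/-- all polynomials and irreducible polynomials -/
theorem rel_le_irr {m n : ℕ} (hmn : 1 ≤ m + n) {z t : ℂ} {w w' : ℝ} (hw' : 0 ≤ w') (hw : (m + n) * w' < w) :
    lowerDensity (relScales m n z t w) ≤ lowerDensity (irrScales m n z t w') := by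
  have hmn' : (1 : ℝ) ≤ m + n := by exact_mod_cast hmn
  obtain ⟨K, hK⟩ : ∃ K : ℝ, K = 2 ^ (m + (m + 1) * n) * ((m + (m + 1) * n + 1 : ℕ) : ℝ) := ⟨_, rfl⟩
  have hK1 : 1 ≤ K := by
    rw [hK]
    have h1 : (1 : ℝ) ≤ 2 ^ (m + (m + 1) * n) := one_le_pow₀ (by norm_num)
    have h2 : (1 : ℝ) ≤ ((m + (m + 1) * n + 1 : ℕ) : ℝ) := by exact_mod_cast Nat.le_add_left _ _
    nlinarith
  obtain ⟨s, hs⟩ : ∃ s : ℝ, s = Real.log K := ⟨_, rfl⟩
  have hs0 : 0 ≤ s := by rw [hs]; exact Real.log_nonneg hK1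
  have hsK : Real.exp s = K := by rw [hs, Real.exp_log (by linarith)]
  obtain ⟨δ, hδ⟩ : ∃ δ : ℝ, δ = w - (m + n) * w' := ⟨_, rfl⟩
  have hδ0 : 0 < δ := by rw [hδ]; linarith
  refine lowerDensity_shift (s := s) (B := max 0 ((m + n) * w' * s / δ + 1)) hs0 ?_
  rintro x ⟨P, hP, hm, hn, h1, h2⟩ hx
  have hx1 : (m + n) * w' * s / δ + 1 ≤ x := (le_max_right _ _).trans hx
  have hx0 : 0 ≤ x := (le_max_left _ _).trans hx
  obtain ⟨r, hr⟩ : ∃ r : ℝ, r = Real.exp (-(w' * (x + s))) := ⟨_, rfl⟩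
  have hr0 : 0 < r := by rw [hr]; exact Real.exp_pos _
  have hr1 : r ≤ 1 := by
    rw [hr, Real.exp_le_one_iff]
    have : 0 ≤ w' * (x + s) := by positivity
    linarith
  obtain ⟨Q, hQ, hQP, h3⟩ := exists_factor (z := z) (t := t) hP hm hn hr0 hr1 (by
    refine lt_of_le_of_lt h2 ?_
    rw [hr, ← Real.exp_mul, ← Real.exp_nat_mul]
    apply Real.exp_lt_exp.2
    have h4 : (m + n) * w' * s < δ * x := by
      have h5 : (m + n) * w' * s / δ < x := by linarith
      rwa [div_lt_iff₀' hδ0] at h5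
    rw [hδ] at h4
    push_cast
    nlinarith)
  obtain ⟨h5, h6⟩ := dvd_degrees hP hQP hm hn
  refine ⟨Q, hQ, h5, h6, fun j i => ?_, ?_⟩
  · rw [Real.exp_add, hsK, mul_comm, hK]
    exact dvd_height hP hQP hm hn h1 j i
  · refine h3.le.trans ?_
    rw [hr, ← Real.exp_mul]
    apply Real.exp_le_exp.2
    linarith

/-- **The density for all polynomials.** -/
theorem rel_upper {z : ℝ} {t : ℂ} {m n : ℕ} (hn : 1 ≤ n) {κ : ℝ} (hκ : 0 ≤ κ)
    (hM : ∀ ε : ℝ, 0 < ε → ∃ c : ℝ, 0 < c ∧ Pool.Agent.W472.AC.MeasP z (2 * n * m) (κ + ε) c)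
    (h : NoRel m n z t) {w : ℝ} (hw : (m + n) * (2 * n * (κ + 1) - 1) < w) :
    lowerDensity (relScales m n z t w) ≤ (m + n) * (n * (κ + 1)) / w := by
  have hn' : (1 : ℝ) ≤ n := by exact_mod_cast hn
  have hmn' : (1 : ℝ) ≤ m + n := by
    have : (0 : ℝ) ≤ m := Nat.cast_nonneg m
    linarith
  have hA : 0 < (n : ℝ) * (κ + 1) := by positivity
  have hA1 : 1 ≤ (n : ℝ) * (κ + 1) := by nlinarith
  have hB : 0 < 2 * (n : ℝ) * (κ + 1) - 1 := by linarith
  have hw0 : 0 < w := lt_of_le_of_lt (by positivity) hw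
  obtain ⟨W, hW⟩ : ∃ W : ℝ, W = w / (m + n) := ⟨_, rfl⟩
  have hW1 : 2 * n * (κ + 1) - 1 < W := by
    rw [hW, lt_div_iff₀ (by linarith)]
    linarith
  have hW0 : 0 < W := by linarith
  have hWw : (m + n) * W = w := by
    rw [hW]
    field_simp
  have main : ∀ w', 2 * n * (κ + 1) - 1 < w' → w' < W → lowerDensity (relScales m n z t w) * w' ≤ n * (κ + 1) := by
    intro w' h1 h2
    have hw' : 0 < w' := by linarith
    have h3 := rel_le_irr (z := z) (t := t) (w := w) (w' := w') (show 1 ≤ m + n by omega) hw'.le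
      (by rw [← hWw]; exact mul_lt_mul_of_pos_left h2 (by linarith))
    have h4 := h3.trans (irr_upper hn hκ hM h h1)
    rwa [le_div_iff₀ hw'] at h4
  have h5 : lowerDensity (relScales m n z t w) * W ≤ n * (κ + 1) := by
    by_contra hcon
    push Not at hcon
    have h6 := lowerDensity_nonneg (relScales m n z t w)
    have h7 : 0 < lowerDensity (relScales m n z t w) := by
      rcases h6.eq_or_lt with h8 | h8
      · rw [← h8, zero_mul] at hcon
        linarith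
      · exact h8
    obtain ⟨w', h8, h9⟩ := exists_between (show max (2 * n * (κ + 1) - 1)
      (n * (κ + 1) / lowerDensity (relScales m n z t w)) < W by
        rw [max_lt_iff]
        exact ⟨hW1, by rw [div_lt_iff₀' h7]; exact hcon⟩)
    rw [max_lt_iff] at h8
    have h10 := main w' h8.1 h9
    have h11 := h8.2
    rw [div_lt_iff₀' h7] at h11
    linarith
  have h6 : ∀ D : ℝ, D * w = (m + n) * (D * W) := fun D => by rw [← hWw]; ring
  rw [le_div_iff₀ hw0, h6]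
  exact mul_le_mul_of_nonneg_left h5 (by linarith)

/-- a relation -/
theorem density_one_rel {z t : ℂ} {m n : ℕ} (h : ¬ NoRel m n z t) (w : ℝ) :
    lowerDensity (relScales m n z t w) = 1 := by
  rw [NoRel] at h
  push Not at h
  obtain ⟨P, hP, hm, hn, h0⟩ := h
  obtain ⟨B, hB⟩ : ∃ B : ℝ, B = Real.log (bh P) := ⟨_, rfl⟩
  have hH1 : (1 : ℝ) ≤ bh P := by exact_mod_cast one_le_bh hP
  have hB0 : 0 ≤ B := by rw [hB]; exact Real.log_nonneg hH1
  have hmem : ∀ x, B ≤ x → x ∈ relScales m n z t w := by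
    intro x hx
    refine ⟨P, hP, hm, hn, fun j i => (coeff_le_bh P j i).trans ?_, ?_⟩
    · rw [← Real.exp_log (by linarith : (0 : ℝ) < bh P), ← hB]
      exact Real.exp_le_exp.2 hx
    · rw [h0, norm_zero]
      positivity
  apply le_antisymm
  · refine lowerDensity_le (x := fun n : ℕ => (n : ℝ)) tendsto_natCast_atTop_atTop ?_
    intro η hη N
    refine ⟨N, le_rfl, ?_⟩
    refine (vol_le _ (Nat.cast_nonneg N)).trans ?_
    have : (0 : ℝ) ≤ N := Nat.cast_nonneg N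
    nlinarith
  · apply le_lowerDensity
    intro η hη
    refine ⟨max B (B / η), fun T hT => ?_⟩
    have h1 : B ≤ T := (le_max_left _ _).trans hT
    have h2 : B / η ≤ T := (le_max_right _ _).trans hT
    rw [div_le_iff₀' hη] at h2
    have h3 := meas_lower (S := relScales m n z t w) hB0 h1 (fun y hy => hmem y hy.1)
    have h4 : 0 ≤ (volume (relScales m n z t w ∩ Icc 0 B)).toReal := ENNReal.toReal_nonneg
    linarith

end Pool.Agent.H595.Gel
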