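import Pool.Agent.H595.Gel.Gel2
import Pool.Agent.H595.Dens.AlgG
import Pool.Graph.R_pool_sql_team_seeded_b0a926ef.R523.CritArr

/-!
# Coefficients, algebraic independence and examples
-/

set_option autoImplicit false

namespace Pool.Agent.H595.Gel

open Polynomial MeasureTheory Filter Topology Set Pool.Agent.H595.Dens Pool.Agent.R523.Gel Pool.Agent.H595.Alg

/-- the value of the polynomial with given coefficients -/
theorem val_arr (z t : ℂ) (m n : ℕ) (P : ℤ[X][X]) (hm : ∀ j, (P.coeff j).natDegree ≤ m) (hn : P.natDegree ≤ n) :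
    val z t P = ∑ i : Fin (m + 1), ∑ j : Fin (n + 1), ((P.coeff j).coeff i : ℂ) * z ^ (i : ℕ) * t ^ (j : ℕ) := by
  rw [val, eval₂_eq_sum_range' _ (show P.natDegree < n + 1 by omega), Finset.sum_comm, Finset.sum_range]
  refine Finset.sum_congr rfl fun j _ => ?_
  rw [ez_apply, aeval_eq_sum_range' (show (P.coeff j).natDegree < m + 1 by
      have := hm j
      omega), Finset.sum_range, Finset.sum_mul]
  refine Finset.sum_congr rfl fun i _ => ?_
  rw [zsmul_eq_mul]

theorem val_toP (z t : ℂ) (m n : ℕ) (a : Fin (m + 1) → Fin (n + 1) → ℤ) :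
    val z t (toP m n a) = ∑ i : Fin (m + 1), ∑ j : Fin (n + 1), (a i j : ℂ) * z ^ (i : ℕ) * t ^ (j : ℕ) := by
  rw [val_arr z t m n _ (fun j => (coeff_le_xd _ j).trans (toP_xd m n a)) (toP_natDegree m n a)]
  have h := toP_coeff' m n a
  refine Finset.sum_congr rfl fun i _ => Finset.sum_congr rfl fun j _ => ?_
  rw [congrFun (congrFun h i) j]

theorem toP_ne {m n : ℕ} {a : Fin (m + 1) → Fin (n + 1) → ℤ} (h : a ≠ 0) : toP m n a ≠ 0 := by
  intro h0
  apply h
  rw [← toP_coeff' m n a, h0]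
  funext i j
  simp

theorem arr_ne {m n : ℕ} {P : ℤ[X][X]} (hP : P ≠ 0) (hm : ∀ j, (P.coeff j).natDegree ≤ m) (hn : P.natDegree ≤ n) :
    (fun (i : Fin (m + 1)) (j : Fin (n + 1)) => (P.coeff j).coeff i) ≠ 0 := by
  intro h0
  apply hP
  ext j i
  rw [coeff_zero, coeff_zero]
  by_cases hj : j < n + 1
  · by_cases hi : i < m + 1
    · exact congrFun (congrFun h0 ⟨i, hi⟩) ⟨j, hj⟩
    · exact coeff_eq_zero_of_natDegree_lt (by
        have := hm j
        omega)
  · rw [coeff_eq_zero_of_natDegree_lt (show P.natDegree < j by omega), coeff_zero]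

theorem noRel_iff (m n : ℕ) (z t : ℂ) : NoRel m n z t ↔ ∀ a : Fin (m + 1) → Fin (n + 1) → ℤ, a ≠ 0 →
    ∑ i : Fin (m + 1), ∑ j : Fin (n + 1), (a i j : ℂ) * z ^ (i : ℕ) * t ^ (j : ℕ) ≠ 0 := by
  constructor
  · intro h a ha
    rw [← val_toP]
    exact h _ (toP_ne ha) (fun j => (coeff_le_xd _ j).trans (toP_xd m n a)) (toP_natDegree m n a)
  · intro h P hP hm hn
    rw [val_arr z t m n P hm hn]
    exact h _ (arr_ne hP hm hn)

theorem relScales_iff (m n : ℕ) (z t : ℂ) (w x : ℝ) : x ∈ relScales m n z t w ↔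
    ∃ a : Fin (m + 1) → Fin (n + 1) → ℤ, a ≠ 0 ∧ (∀ i j, |(a i j : ℝ)| ≤ Real.exp x) ∧
      ‖∑ i : Fin (m + 1), ∑ j : Fin (n + 1), (a i j : ℂ) * z ^ (i : ℕ) * t ^ (j : ℕ)‖ ≤ Real.exp x ^ (-w) := by
  constructor
  · rintro ⟨P, hP, hm, hn, h1, h2⟩
    refine ⟨_, arr_ne hP hm hn, fun i j => h1 j i, ?_⟩
    rw [val_arr z t m n P hm hn] at h2
    exact h2
  · rintro ⟨a, ha, h1, h2⟩
    refine ⟨toP m n a, toP_ne ha, fun j => (coeff_le_xd _ j).trans (toP_xd m n a), toP_natDegree m n a, ?_, ?_⟩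
    · intro j i
      rw [toP_coeff]
      split_ifs with h
      · exact h1 _ _
      · rw [Int.cast_zero, abs_zero]
        exact (Real.exp_pos _).le
    · rw [val_toP]
      exact h2

/-- **Algebraic independence.** -/
theorem algInd_iff (z t : ℂ) : AlgebraicIndependent ℚ ![z, t] ↔ ∀ m n, NoRel m n z t := by
  have hprod : ∀ d : Fin 2 →₀ ℕ, (∏ i, (![z, t] : Fin 2 → ℂ) i ^ d i) = z ^ d 0 * t ^ d 1 := by
    intro d
    rw [Fin.prod_univ_two]
    rfl
  constructor
  · intro h m n
    rw [noRel_iff]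
    intro a ha h0
    apply ha
    obtain ⟨p, hp⟩ : ∃ p : MvPolynomial (Fin 2) ℚ, p = ∑ i : Fin (m + 1), ∑ j : Fin (n + 1),
        MvPolynomial.monomial (Finsupp.single 0 (i : ℕ) + Finsupp.single 1 (j : ℕ)) (a i j : ℚ) := ⟨_, rfl⟩
    have h1 : MvPolynomial.aeval (![z, t] : Fin 2 → ℂ) p = 0 := by
      rw [hp, map_sum, ← h0]
      refine Finset.sum_congr rfl fun i _ => ?_
      rw [map_sum]
      refine Finset.sum_congr rfl fun j _ => ?_
      rw [MvPolynomial.aeval_monomial, Finsupp.prod_fintype _ _ (fun i => pow_zero _), hprod]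
      simp [mul_assoc]
    have h2 : p = 0 := by
      rw [algebraicIndependent_iff] at h
      exact h p h1
    funext i j
    have h3 := congrArg (MvPolynomial.coeff (Finsupp.single 0 (i : ℕ) + Finsupp.single 1 (j : ℕ))) h2
    rw [hp, MvPolynomial.coeff_sum, MvPolynomial.coeff_zero] at h3
    simp only [MvPolynomial.coeff_sum, MvPolynomial.coeff_monomial] at h3
    rw [Finset.sum_eq_single i, Finset.sum_eq_single j, if_pos rfl] at h3
    · have h4 : a i j = 0 := by exact_mod_cast h3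
      rw [h4]
      rfl
    · intro b _ hb
      rw [if_neg]
      intro h4
      apply hb
      have h5 := DFunLike.congr_fun h4 1
      simp at h5
      exact Fin.ext h5
    · intro h4
      exact absurd (Finset.mem_univ _) h4
    · intro b _ hb
      refine Finset.sum_eq_zero fun c _ => ?_
      rw [if_neg]
      intro h4
      apply hb
      have h5 := DFunLike.congr_fun h4 0
      simp at h5
      exact Fin.ext h5
    · intro h4
      exact absurd (Finset.mem_univ _) h4
  · intro h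
    rw [algebraicIndependent_iff]
    intro p hp
    by_contra hp0
    obtain ⟨m, hm⟩ : ∃ m, m = p.degreeOf 0 := ⟨_, rfl⟩
    obtain ⟨n, hn⟩ : ∃ n, n = p.degreeOf 1 := ⟨_, rfl⟩
    obtain ⟨N, hN⟩ : ∃ N : ℕ, N = ∏ s ∈ p.support, (p.coeff s).den := ⟨_, rfl⟩
    have hN0 : N ≠ 0 := by
      rw [hN, Finset.prod_ne_zero_iff]
      intro s _
      exact (p.coeff s).den_nz
    have hint : ∀ s, ∃ b : ℤ, (N : ℚ) * p.coeff s = b := by
      intro s
      by_cases hs : s ∈ p.support
      · obtain ⟨k, hk⟩ := Finset.dvd_prod_of_mem (fun s => (p.coeff s).den) hs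
        refine ⟨k * (p.coeff s).num, ?_⟩
        have h1 : (((p.coeff s).den : ℕ) : ℚ) * p.coeff s = (p.coeff s).num := (p.coeff s).den_mul_eq_num
        rw [hN, hk]
        push_cast
        rw [← h1]
        ring
      · rw [MvPolynomial.notMem_support_iff.1 hs]
        exact ⟨0, by simp⟩
    choose b hb using hint
    obtain ⟨f, hf⟩ : ∃ f : Fin (m + 1) × Fin (n + 1) → (Fin 2 →₀ ℕ), f = fun x =>
      Finsupp.single 0 (x.1 : ℕ) + Finsupp.single 1 (x.2 : ℕ) := ⟨_, rfl⟩
    have hf0 : ∀ x, f x 0 = x.1 := by intro x; rw [hf]; simp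
    have hf1 : ∀ x, f x 1 = x.2 := by intro x; rw [hf]; simp
    have hinj : Function.Injective f := by
      intro x y hxy
      have h1 := DFunLike.congr_fun hxy 0
      have h2 := DFunLike.congr_fun hxy 1
      rw [hf0, hf0] at h1
      rw [hf1, hf1] at h2
      exact Prod.ext (Fin.ext h1) (Fin.ext h2)
    have himg : ∀ d ∈ p.support, ∃ x, f x = d := by
      intro d hd
      have h1 : d 0 ≤ m := by rw [hm]; exact MvPolynomial.monomial_le_degreeOf 0 hd
      have h2 : d 1 ≤ n := by rw [hn]; exact MvPolynomial.monomial_le_degreeOf 1 hd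
      refine ⟨(⟨d 0, by omega⟩, ⟨d 1, by omega⟩), ?_⟩
      ext k
      fin_cases k
      · exact hf0 _
      · exact hf1 _
    have h1 := (noRel_iff m n z t).1 (h m n) (fun i j => b (f (i, j))) (by
      intro h0
      apply hp0
      ext d
      rw [MvPolynomial.coeff_zero]
      by_contra hd
      obtain ⟨x, hx⟩ := himg d (MvPolynomial.mem_support_iff.2 hd)
      have h1 : b (f x) = 0 := congrFun (congrFun h0 x.1) x.2
      have h2 := hb (f x)
      rw [h1, hx, Int.cast_zero, mul_eq_zero] at h2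
      rcases h2 with h2 | h2
      · exact hN0 (by exact_mod_cast h2)
      · exact hd h2)
    apply h1
    have h2 : ∑ i : Fin (m + 1), ∑ j : Fin (n + 1), ((b (f (i, j)) : ℤ) : ℂ) * z ^ (i : ℕ) * t ^ (j : ℕ) =
        N * MvPolynomial.aeval (![z, t] : Fin 2 → ℂ) p := by
      rw [MvPolynomial.aeval_def, MvPolynomial.eval₂_eq', Finset.mul_sum]
      have h3 : ∀ d : Fin 2 →₀ ℕ, (N : ℂ) * (algebraMap ℚ ℂ (p.coeff d) * ∏ i, (![z, t] : Fin 2 → ℂ) i ^ d i) =
          (b d : ℂ) * z ^ d 0 * t ^ d 1 := by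
        intro d
        have h4 : (N : ℂ) * algebraMap ℚ ℂ (p.coeff d) = b d := by
          have h5 := congrArg (algebraMap ℚ ℂ) (hb d)
          rw [map_mul, map_natCast, map_intCast] at h5
          exact h5
        rw [hprod, ← mul_assoc, h4, mul_assoc]
      simp only [h3]
      have h4 : ∑ d ∈ p.support, (b d : ℂ) * z ^ d 0 * t ^ d 1 =
          ∑ d ∈ Finset.univ.image f, (b d : ℂ) * z ^ d 0 * t ^ d 1 := by
        apply Finset.sum_subset
        · intro d hd
          obtain ⟨x, hx⟩ := himg d hd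
          exact Finset.mem_image.2 ⟨x, Finset.mem_univ _, hx⟩
        · intro d _ hd
          have h5 := hb d
          rw [MvPolynomial.notMem_support_iff.1 hd, mul_zero] at h5
          have h6 : b d = 0 := by exact_mod_cast h5.symm
          rw [h6]
          simp
      rw [h4, Finset.sum_image (fun x _ y _ h => hinj h), Fintype.sum_prod_type]
      refine Finset.sum_congr rfl fun i _ => Finset.sum_congr rfl fun j _ => ?_
      rw [hf0, hf1]
    rw [h2, hp, mul_zero]

end Pool.Agent.H595.Gel
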