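import Pool.Agent.H595.Gel.Gel3

/-!
# A measure if `z` and `t` are algebraically dependent; examples
-/

set_option autoImplicit false

namespace Pool.Agent.H595.Gel

open Polynomial MeasureTheory Filter Topology Set Pool.Agent.H595.Dens Pool.Agent.R523.Gel Pool.Agent.H595.Alg

theorem val_add (z t : ℂ) (P Q : ℤ[X][X]) : val z t (P + Q) = val z t P + val z t Q := by
  rw [val, eval₂_add, val, val]

/-- a zero of a polynomial is a zero of an irreducible factor -/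
theorem exists_zero {z t : ℂ} {m n : ℕ} (h : ¬ NoRel m n z t) : ∃ P : BP m n, val z t P.1 = 0 := by
  rw [NoRel] at h
  push Not at h
  obtain ⟨P, hP, hm, hn, h0⟩ := h
  obtain ⟨s, hs1, u, hs2⟩ := WfDvdMonoid.exists_factors P hP
  have h1 : eval₂RingHom (ez z) t (s.prod * (u : ℤ[X][X])) = 0 := by rw [hs2]; exact h0
  rw [map_mul, mul_eq_zero] at h1
  have h2 : eval₂RingHom (ez z) t s.prod = 0 := by
    refine h1.resolve_right (fun h3 => ?_)
    have h4 : IsUnit (eval₂RingHom (ez z) t (u : ℤ[X][X])) := u.isUnit.map _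
    rw [h3] at h4
    exact not_isUnit_zero h4
  rw [map_multiset_prod, Multiset.prod_eq_zero_iff, Multiset.mem_map] at h2
  obtain ⟨A, hA, hA0⟩ := h2
  have hdvd : A ∣ P := by
    rw [← hs2]
    exact (Multiset.dvd_prod hA).mul_right _
  obtain ⟨h3, h4⟩ := dvd_degrees hP hdvd hm hn
  exact ⟨⟨A, hs1 A hA, h3, h4⟩, hA0⟩

theorem irr_measure {z : ℝ} {t : ℂ} {m n : ℕ} (hn : 1 ≤ n) {κ c : ℝ} (hκ : 0 ≤ κ) (hc : 0 < c)
    (hM : Pool.Agent.W472.AC.MeasP z (2 * n * m) κ c) (h : ¬ NoRel m n z t) :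
    ∃ c' : ℝ, 0 < c' ∧ ∀ Q : BP m n, val z t Q.1 ≠ 0 →
      c' ≤ (bh Q.1 : ℝ) ^ ((n : ℝ) * κ + (n - 1)) * ‖val z t Q.1‖ := by
  have hn' : (1 : ℝ) ≤ n := by exact_mod_cast hn
  obtain ⟨P, hP⟩ := exists_zero h
  obtain ⟨c₁, hc₁, h1⟩ := two z t m n hn hκ hc hM
  have hbP := bh_pos P
  have he : 0 ≤ (n : ℝ) * κ + (n - 1) := by
    have : 0 ≤ (n : ℝ) * κ := by positivity
    linarith
  -- the polynomials of the same height
  have hfin : {Q : BP m n | gX Q ≤ gX P}.Finite := finite_gX _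
  obtain ⟨c₂, hc₂, h2⟩ : ∃ c₂ : ℝ, 0 < c₂ ∧ ∀ Q : BP m n, gX Q ≤ gX P → val z t Q.1 ≠ 0 → c₂ ≤ ‖val z t Q.1‖ := by
    by_cases hne : ({Q : BP m n | gX Q ≤ gX P} ∩ {Q | val z t Q.1 ≠ 0}).Nonempty
    · obtain ⟨Q₀, hQ₀, hmin⟩ := Set.exists_min_image _ (fun Q : BP m n => ‖val z t Q.1‖) (hfin.inter_of_left _) hne
      exact ⟨‖val z t Q₀.1‖, norm_pos_iff.2 hQ₀.2, fun Q h3 h4 => hmin Q ⟨h3, h4⟩⟩
    · exact ⟨1, one_pos, fun Q h3 h4 => absurd ⟨Q, h3, h4⟩ hne⟩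
  refine ⟨min c₂ (c₁ / ((bh P.1 : ℝ) ^ ((n : ℝ) * κ + (n - 1)) * bh P.1)), lt_min hc₂ (by positivity),
    fun Q hQ => ?_⟩
  have hbQ := bh_pos Q
  have hvQ := norm_nonneg (val z t Q.1)
  by_cases hne : bh P.1 = bh Q.1
  · refine (min_le_left _ _).trans ((h2 Q (by rw [gX, gX, hne]) hQ).trans ?_)
    have h3 : 1 ≤ (bh Q.1 : ℝ) ^ ((n : ℝ) * κ + (n - 1)) := Real.one_le_rpow hbQ he
    nlinarith
  · refine (min_le_right _ _).trans ?_
    have h3 := h1 P.1 Q.1 P.2.1 Q.2.1 P.2.2.1 Q.2.2.1 P.2.2.2 Q.2.2.2 hne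
    rw [hP, norm_zero, zero_mul, zero_add, Real.mul_rpow (by linarith) (by linarith)] at h3
    rw [div_le_iff₀ (by positivity)]
    linarith

/-- **A measure for algebraically dependent numbers.** -/
theorem measure_of_rel {z : ℝ} {t : ℂ} {m n : ℕ} (hn : 1 ≤ n) {κ c : ℝ} (hκ : 0 ≤ κ) (hc : 0 < c)
    (hM : Pool.Agent.W472.AC.MeasP z (2 * n * m) κ c) (h : ¬ NoRel m n z t) :
    ∃ E c' : ℝ, 0 ≤ E ∧ 0 < c' ∧ ∀ P : ℤ[X][X], P ≠ 0 → (∀ j, (P.coeff j).natDegree ≤ m) → P.natDegree ≤ n →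
      val z t P ≠ 0 → ∀ H : ℝ, 1 ≤ H → (∀ j i, |((P.coeff j).coeff i : ℝ)| ≤ H) → c' ≤ H ^ E * ‖val z t P‖ := by
  have hn' : (1 : ℝ) ≤ n := by exact_mod_cast hn
  obtain ⟨c₁, hc₁, h1⟩ := irr_measure (z := z) hn hκ hc hM h
  obtain ⟨e, he⟩ : ∃ e : ℝ, e = (n : ℝ) * κ + (n - 1) := ⟨_, rfl⟩
  have he0 : 0 ≤ e := by
    have : 0 ≤ (n : ℝ) * κ := by positivity
    rw [he]
    linarith
  rw [← he] at h1
  obtain ⟨K, hK⟩ : ∃ K : ℝ, K = 2 ^ (m + (m + 1) * n) * ((m + (m + 1) * n + 1 : ℕ) : ℝ) := ⟨_, rfl⟩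
  have hK1 : 1 ≤ K := by
    rw [hK]
    have h1 : (1 : ℝ) ≤ 2 ^ (m + (m + 1) * n) := one_le_pow₀ (by norm_num)
    have h2 : (1 : ℝ) ≤ ((m + (m + 1) * n + 1 : ℕ) : ℝ) := by exact_mod_cast Nat.le_add_left _ _
    nlinarith
  obtain ⟨c₂, hc₂⟩ : ∃ c₂ : ℝ, c₂ = min 1 c₁ / K ^ e := ⟨_, rfl⟩
  have hc₂0 : 0 < c₂ := by rw [hc₂]; exact div_pos (lt_min one_pos hc₁) (by positivity)
  have hc₂1 : c₂ ≤ 1 := by
    rw [hc₂, div_le_one (by positivity)]
    exact (min_le_left _ _).trans (Real.one_le_rpow hK1 he0)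
  refine ⟨e * (m + n), c₂ ^ (m + n), by positivity, by positivity, ?_⟩
  intro P hP hm hnP h0 H hH hH'
  have hH0 : 0 < H := by linarith
  by_contra hcon
  push Not at hcon
  obtain ⟨r, hr⟩ : ∃ r : ℝ, r = c₂ / H ^ e := ⟨_, rfl⟩
  have hHe : 1 ≤ H ^ e := Real.one_le_rpow hH he0
  have hr0 : 0 < r := by rw [hr]; positivity
  have hr1 : r ≤ 1 := by
    rw [hr, div_le_one (by positivity)]
    linarith
  have hlt : ‖val z t P‖ < r ^ (m + n) := by
    rw [hr, div_pow, lt_div_iff₀ (by positivity), ← Real.rpow_natCast (H ^ e), ← Real.rpow_mul hH0.le]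
    push_cast
    linarith
  obtain ⟨Q, hQ, hQP, h3⟩ := exists_factor hP hm hnP hr0 hr1 hlt
  obtain ⟨h5, h6⟩ := dvd_degrees hP hQP hm hnP
  have hQ0 : val z t Q ≠ 0 := by
    intro h7
    apply h0
    obtain ⟨G, rfl⟩ := hQP
    rw [val_mul, h7, zero_mul]
  have h7 := h1 ⟨Q, hQ, h5, h6⟩ hQ0
  have h8 : (bh Q : ℝ) ≤ K * H := bh_le (by positivity) (fun j i => by
    rw [hK]
    exact dvd_height hP hQP hm hnP hH' j i)
  have hb := bh_pos ⟨Q, hQ, h5, h6⟩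
  have h9 : c₁ < (K * H) ^ e * r := by
    calc c₁ ≤ (bh Q : ℝ) ^ e * ‖val z t Q‖ := h7
      _ ≤ (K * H) ^ e * ‖val z t Q‖ := by gcongr
      _ < (K * H) ^ e * r := by gcongr
  rw [Real.mul_rpow (by linarith) hH0.le, hr, hc₂] at h9
  have h10 : K ^ e * H ^ e * (min 1 c₁ / K ^ e / H ^ e) = min 1 c₁ := by
    field_simp
  rw [h10] at h9
  exact absurd h9 (not_lt.2 (min_le_right _ _))

/-- the polynomial `q X ^ k Y - p` -/
noncomputable def lin (k : ℕ) (p q : ℤ) : ℤ[X][X] := C (C (-p)) + C (C q * X ^ k) * X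

theorem val_lin (z t : ℝ) (k : ℕ) (p q : ℤ) : val z t (lin k p q) = ((q * (t * z ^ k) - p : ℝ) : ℂ) := by
  rw [lin, val_add, val_mul, val_C, val_C, val, eval₂_X, map_mul, map_pow, aeval_C, aeval_C, aeval_X]
  push_cast
  simp
  ring

theorem lin_coeff (k : ℕ) (p q : ℤ) (j : ℕ) : (lin k p q).coeff j =
    if j = 0 then C (-p) else if j = 1 then C q * X ^ k else 0 := by
  rw [lin, coeff_add, coeff_C, coeff_C_mul, coeff_X]
  rcases j with _ | _ | j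
  · simp
  · simp
  · simp

theorem lin_deg (k : ℕ) (p q : ℤ) (j : ℕ) : ((lin k p q).coeff j).natDegree ≤ k := by
  rw [lin_coeff]
  split_ifs
  · rw [natDegree_C]
    exact Nat.zero_le _
  · exact natDegree_C_mul_X_pow_le _ _
  · simp

theorem lin_natDegree (k : ℕ) (p q : ℤ) : (lin k p q).natDegree ≤ 1 := by
  refine natDegree_le_iff_coeff_eq_zero.2 fun j hj => ?_
  rw [lin_coeff, if_neg (by omega), if_neg (by omega)]

theorem lin_height (k : ℕ) (p q : ℤ) (j i : ℕ) : |(((lin k p q).coeff j).coeff i : ℝ)| ≤ max |(p : ℝ)| |(q : ℝ)| := by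
  have h0 : (0 : ℝ) ≤ max |(p : ℝ)| |(q : ℝ)| := le_max_of_le_left (abs_nonneg _)
  rw [lin_coeff]
  split_ifs
  · rw [coeff_C]
    split_ifs
    · push_cast
      rw [abs_neg]
      exact le_max_left _ _
    · simpa using h0
  · rw [coeff_C_mul, coeff_X_pow]
    split_ifs
    · rw [mul_one]
      exact le_max_right _ _
    · simpa using h0
  · simpa using h0

theorem lin_ne (k : ℕ) (p : ℤ) {q : ℤ} (hq : 1 ≤ q) : lin k p q ≠ 0 := by
  intro h
  have h1 := congrArg (fun P : ℤ[X][X] => (P.coeff 1).coeff k) h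
  simp only [coeff_zero] at h1
  rw [lin_coeff, if_neg (by norm_num), if_pos rfl, coeff_C_mul, coeff_X_pow, if_pos rfl, mul_one] at h1
  omega

/-- rational approximations give relations -/
theorem rat_le_rel {m n : ℕ} (hm : 1 ≤ m) (hn : 1 ≤ n) {z t : ℝ} {w w' : ℝ} (hw' : 0 ≤ w') (hw : w' < w) :
    lowerDensity (ratScales (fun k : Fin 2 => t * z ^ (k : ℕ)) w) ≤ lowerDensity (relScales m n z t w') := by
  obtain ⟨y, hy⟩ : ∃ y : ℝ, y = ∑ k : Fin 2, |t * z ^ (k : ℕ)| := ⟨_, rfl⟩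
  have hyk : ∀ k : Fin 2, |t * z ^ (k : ℕ)| ≤ y := fun k => by
    rw [hy]
    exact Finset.single_le_sum (f := fun k : Fin 2 => |t * z ^ (k : ℕ)|) (fun _ _ => abs_nonneg _) (Finset.mem_univ k)
  have hy0 : 0 ≤ y := (abs_nonneg _).trans (hyk 0)
  obtain ⟨s, hs⟩ : ∃ s : ℝ, s = Real.log (y + 1) := ⟨_, rfl⟩
  have hs0 : 0 ≤ s := by rw [hs]; exact Real.log_nonneg (by linarith)
  have hexp : Real.exp s = y + 1 := by rw [hs, Real.exp_log (by linarith)]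
  have hww : 0 < w - w' := by linarith
  refine lowerDensity_shift (s := s) (B := max 0 (w' * s / (w - w'))) hs0 ?_
  rintro x ⟨k, p, q, hq, h1, h2⟩ hx
  have hx2 : w' * s / (w - w') ≤ x := (le_max_right _ _).trans hx
  rw [div_le_iff₀' hww] at hx2
  have hx0 : 0 ≤ x := (le_max_left _ _).trans hx
  have hq' : (1 : ℝ) ≤ q := by exact_mod_cast hq
  rw [← Real.exp_mul] at h2
  have h3 : |q * (t * z ^ (k : ℕ)) - p| ≤ 1 := by
    refine h2.trans ?_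
    rw [← Real.exp_zero]
    apply Real.exp_le_exp.2
    have : 0 ≤ x * w := mul_nonneg hx0 (by linarith)
    linarith
  refine ⟨lin k p q, lin_ne _ _ hq, fun j => (lin_deg _ _ _ _).trans ?_, (lin_natDegree _ _ _).trans hn,
    fun j i => (lin_height _ _ _ _ _).trans ?_, ?_⟩
  · have := k.2
    omega
  · rw [Real.exp_add, hexp]
    have h4 := hgt_bound hq h3
    rw [abs_of_pos (by linarith : (0 : ℝ) < q)]
    refine h4.trans ?_
    rw [mul_comm]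
    have h5 := hyk k
    gcongr
  · rw [val_lin, Complex.norm_real, Real.norm_eq_abs]
    refine h2.trans ?_
    rw [← Real.exp_mul]
    apply Real.exp_le_exp.2
    linarith

end Pool.Agent.H595.Gel
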