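import Pool.Agent.H595.Gel.Gel4

/-!
# Examples
-/

set_option autoImplicit false

namespace Pool.Agent.H595.Gel

open Polynomial MeasureTheory Filter Topology Set Pool.Agent.H595.Dens Pool.Agent.R523.Gel Pool.Agent.H595.Alg

/-- numbers such that `t` or `t z` is often near a rational number -/
theorem exists_rat {z : ℝ} (hz : PolyM z) {a b : ℝ} (ha : 0 < a) (hab : a < b) :
    ∃ t : ℝ, a < t ∧ t < b ∧ (∀ k : Fin 2, Irrational (t * z ^ (k : ℕ))) ∧
      ∀ w : ℝ, 2 ≤ w → 2 / w ≤ lowerDensity (ratScales (fun k : Fin 2 => t * z ^ (k : ℕ)) w) := by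
  have hz0 := hz.ne_zero
  obtain ⟨k₁, hk₁⟩ : ∃ k₁ : ℤ, k₁ = 0 := ⟨_, rfl⟩
  obtain ⟨k₂, hk₂⟩ : ∃ k₂ : ℤ, k₂ = 1 := ⟨_, rfl⟩
  have hk : k₁ ≠ k₂ := by rw [hk₁, hk₂]; norm_num
  obtain ⟨ρ, hρ⟩ : ∃ ρ : Fin 2 → ℝ, ρ = ![z ^ k₁, z ^ k₂] := ⟨_, rfl⟩
  have hρ0 : ρ 0 = z ^ k₁ := by rw [hρ]; rfl
  have hρ1 : ρ 1 = z ^ k₂ := by rw [hρ]; rfl
  obtain ⟨E, hE, hsep⟩ := sep_zpow hz 1 hk
  obtain ⟨N, hN⟩ := exists_nat_ge (E + 1)
  have hne : ∀ j, ρ j ≠ 0 := by
    intro j
    fin_cases j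
    · show ρ 0 ≠ 0
      rw [hρ0]
      exact zpow_ne_zero _ hz0
    · show ρ 1 ≠ 0
      rw [hρ1]
      exact zpow_ne_zero _ hz0
  have hirr : ∀ j k, j ≠ k → Irrational (ρ j / ρ k) := by
    intro j k hjk
    fin_cases j <;> fin_cases k
    · exact absurd rfl hjk
    · show Irrational (ρ 0 / ρ 1)
      rw [hρ0, hρ1, ← zpow_sub₀ hz0]
      exact irr_zpow hz (sub_ne_zero.2 hk)
    · show Irrational (ρ 1 / ρ 0)
      rw [hρ0, hρ1, ← zpow_sub₀ hz0]
      exact irr_zpow hz (sub_ne_zero.2 (Ne.symm hk))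
    · exact absurd rfl hjk
  obtain ⟨M, hM⟩ : ∃ M : ℝ, M = ∑ j, |ρ j| := ⟨_, rfl⟩
  have hρM : ∀ j, |ρ j| ≤ M := fun j => by
    rw [hM]
    exact Finset.single_le_sum (f := fun j => |ρ j|) (fun _ _ => abs_nonneg _) (Finset.mem_univ j)
  have hM0 : 0 < M := lt_of_lt_of_le (abs_pos.2 (hne 0)) (hρM 0)
  obtain ⟨G, hG⟩ : ∃ G : ℝ, G = ∑ jk : Fin 2 × Fin 2, |ρ jk.1 / ρ jk.2| := ⟨_, rfl⟩
  have hρG : ∀ j k, |ρ j / ρ k| ≤ G := fun j k => by
    rw [hG]
    exact Finset.single_le_sum (f := fun jk : Fin 2 × Fin 2 => |ρ jk.1 / ρ jk.2|) (fun _ _ => abs_nonneg _)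
      (Finset.mem_univ (j, k))
  have hG0 : 0 < G := lt_of_lt_of_le (abs_pos.2 (div_ne_zero (hne 0) (hne 0))) (hρG 0 0)
  have hb : 0 < b := ha.trans hab
  obtain ⟨y, hy1, hy2⟩ : ∃ y : ℚ, a < y / ρ 0 ∧ y / ρ 0 < b := by
    rcases lt_or_gt_of_ne (hne 0) with h | h
    · obtain ⟨y, h1, h2⟩ := exists_rat_btwn (show b * ρ 0 < a * ρ 0 from mul_lt_mul_of_neg_right hab h)
      exact ⟨y, by rw [lt_div_iff_of_neg h]; exact h2, by rw [div_lt_iff_of_neg h]; exact h1⟩
    · obtain ⟨y, h1, h2⟩ := exists_rat_btwn (show a * ρ 0 < b * ρ 0 from mul_lt_mul_of_pos_right hab h)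
      exact ⟨y, by rw [lt_div_iff₀ h]; exact h1, by rw [div_lt_iff₀ h]; exact h2⟩
  obtain ⟨t, ht1, ht2, ht3, ht4⟩ := exists_t_famK (Θ := fun (j : Fin 2) t => t * ρ j) (α := a) (β := b) (M := M)
    (C := b * G) (b := 1) (K := N) le_rfl hM0
    (by positivity) (fun j s t => by
      have e1 : s * ρ j - t * ρ j = ρ j * (s - t) := by ring
      rw [e1, abs_mul]
      exact mul_le_mul_of_nonneg_right (hρM j) (abs_nonneg _))
    (fun j s t h => mul_right_cancel₀ (hne j) h)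
    (fun t ht _ j k hjk => by
      have ht0 : t ≠ 0 := by linarith
      fin_cases j <;> fin_cases k
      · exact absurd rfl hjk
      · have h1 := rat_of_sep le_rfl (hsep t ht0) hE hN
        rw [← hρ0, ← hρ1] at h1
        exact h1
      · have h1 := rat_of_sep le_rfl (hsep t ht0).symm hE hN
        rw [← hρ0, ← hρ1] at h1
        exact h1
      · exact absurd rfl hjk) 0 (y / ρ 0) hy1 hy2 y.den y.num y.pos (by
      have : (y.den : ℝ) * y = y.num := by exact_mod_cast y.den_mul_eq_num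
      show (y.den : ℝ) * (y / ρ 0 * ρ 0) = y.num
      rw [← this, div_mul_cancel₀ _ (hne 0)]) (by
      intro j τ q p hτα hτβ hq hp N
      obtain ⟨k, hk⟩ := exists_ne j
      have hirr' := hirr k j hk
      obtain ⟨P, Q, hNQ, hQ1, hPQ⟩ := exists_approx hirr' N
      have hqr : (1 : ℝ) ≤ q := by exact_mod_cast hq
      have hQr : (1 : ℝ) ≤ Q := by exact_mod_cast hQ1
      have hp' : (q : ℝ) * (τ * ρ j) = p := hp
      have hτ0 : 0 < τ := by linarith
      have hj := hne j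
      have hk' := hne k
      obtain ⟨σ, hσ⟩ : ∃ σ : ℝ, σ = ((p * P : ℤ) : ℝ) / (q * Q * ρ k) := ⟨_, rfl⟩
      have hdiff : σ - τ = τ * -((Q : ℝ) * (ρ k / ρ j) - P) * (ρ j / ρ k) / Q := by
        rw [hσ]
        push_cast
        rw [← hp']
        field_simp
        ring
      refine ⟨k, σ, p * P, Q, hNQ, hQ1, ?_, ?_, ?_⟩
      · show ((1 * q * Q : ℕ) : ℝ) * (σ * ρ k) = _
        rw [hσ]
        push_cast
        field_simp
      · intro h
        rw [h, sub_self, eq_comm, div_eq_zero_iff, mul_eq_zero, mul_eq_zero, neg_eq_zero, sub_eq_zero] at hdiff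
        rcases hdiff with ((h1 | h1) | h1) | h1
        · exact hτ0.ne' h1
        · exact (hirr'.natCast_mul (show Q ≠ 0 by omega)).ne_int P h1
        · exact div_ne_zero hj hk' h1
        · linarith
      · rw [hdiff, abs_div, abs_mul, abs_mul, abs_neg, abs_of_pos (by linarith : (0 : ℝ) < Q), abs_of_pos hτ0,
          div_le_div_iff₀ (by linarith) (by positivity)]
        have h1 : |(Q : ℝ) * (ρ k / ρ j) - P| * Q ≤ 1 := by
          rw [lt_div_iff₀ (by linarith)] at hPQ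
          exact hPQ.le
        have h2 := hρG j k
        calc τ * |(Q : ℝ) * (ρ k / ρ j) - P| * |ρ j / ρ k| * (Q : ℝ) ^ 2 =
              (τ * (|(Q : ℝ) * (ρ k / ρ j) - P| * Q)) * |ρ j / ρ k| * Q := by ring
          _ ≤ (b * 1) * G * Q := by gcongr
          _ = b * G * Q := by ring)
  have hρk : ∀ k : Fin 2, ρ k = z ^ (k : ℕ) := by
    intro k
    fin_cases k
    · show ρ 0 = z ^ 0
      rw [hρ0, hk₁, zpow_zero, pow_zero]
    · show ρ 1 = z ^ 1
      rw [hρ1, hk₂, zpow_one, pow_one]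
  have hfun : (fun k : Fin 2 => t * z ^ (k : ℕ)) = fun j => t * ρ j := by
    funext k
    rw [hρk]
  refine ⟨t, ht1, ht2, fun k => ?_, fun w hw => ?_⟩
  · rw [← hρk]
    exact ht3 k
  · rw [hfun]
    exact ht4 w hw

/-- **Examples.** -/
theorem exists_indep {z : ℝ} (hz : PolyM z) {a b : ℝ} (ha : 0 < a) (hab : a < b) :
    ∃ t : ℝ, a < t ∧ t < b ∧ (∀ m n, NoRel m n z t) ∧
      ∀ m n : ℕ, 1 ≤ m → 1 ≤ n → ∀ w : ℝ, 2 ≤ w → 2 / w ≤ lowerDensity (relScales m n z t w) := by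
  obtain ⟨t, ht1, ht2, ht3, ht4⟩ := exists_rat hz ha hab
  refine ⟨t, ht1, ht2, fun m n => ?_, fun m n hm hn w hw => ?_⟩
  · by_contra hcon
    obtain ⟨M, hM⟩ : ∃ M : ℕ, M = m + 1 := ⟨_, rfl⟩
    obtain ⟨N, hN⟩ : ∃ N : ℕ, N = n + 1 := ⟨_, rfl⟩
    have hcon' : ¬ NoRel M N z t := fun h => hcon (fun P hP h1 h2 =>
      h P hP (fun j => (h1 j).trans (by omega)) (by omega))
    obtain ⟨κ, c, hκ, hc, hMe⟩ := hz (2 * N * M)
    obtain ⟨E, c', hE, hc', h⟩ := measure_of_rel (z := z) (t := t) (show 1 ≤ N by omega) hκ hc hMe hcon'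
    obtain ⟨y, hy⟩ : ∃ y : ℝ, y = ∑ k : Fin 2, |t * z ^ (k : ℕ)| := ⟨_, rfl⟩
    have hyk : ∀ k : Fin 2, |t * z ^ (k : ℕ)| ≤ y := fun k => by
      rw [hy]
      exact Finset.single_le_sum (f := fun k : Fin 2 => |t * z ^ (k : ℕ)|) (fun _ _ => abs_nonneg _)
        (Finset.mem_univ k)
    have hy0 : 0 ≤ y := (abs_nonneg _).trans (hyk 0)
    have key : ∀ k : Fin 2, ∀ p q : ℤ, 1 ≤ q →
        min 1 (c' / (y + 1) ^ E) ≤ (q : ℝ) ^ E * |q * (t * z ^ (k : ℕ)) - p| := by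
      intro k p q hq
      have hq' : (1 : ℝ) ≤ q := by exact_mod_cast hq
      by_cases h1 : |q * (t * z ^ (k : ℕ)) - p| ≤ 1
      · refine (min_le_right _ _).trans ?_
        rw [div_le_iff₀ (by positivity)]
        have h2 : max |(p : ℝ)| |(q : ℝ)| ≤ (y + 1) * q := by
          rw [abs_of_pos (by linarith : (0 : ℝ) < q)]
          refine (hgt_bound hq h1).trans ?_
          have := hyk k
          gcongr
        have h3 := h (lin k p q) (lin_ne _ _ hq) (fun j => (lin_deg _ _ _ _).trans (by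
          have := k.2
          omega)) ((lin_natDegree _ _ _).trans (by omega)) (by
            rw [val_lin, Complex.ofReal_ne_zero, sub_ne_zero]
            have h4 : Irrational (((q : ℤ) : ℝ) * (t * z ^ (k : ℕ))) := (ht3 k).intCast_mul (by omega)
            exact h4.ne_int p) ((y + 1) * q) (by nlinarith) (fun j i => (lin_height _ _ _ _ _).trans h2)
        rw [val_lin, Complex.norm_real, Real.norm_eq_abs, Real.mul_rpow (by linarith) (by linarith)] at h3
        linarith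
      · refine (min_le_left _ _).trans ?_
        have h2 : 1 ≤ (q : ℝ) ^ E := Real.one_le_rpow hq' hE
        push Not at h1
        nlinarith
    have h8 := bdd_of_measure (w := E + 2) hE (lt_min one_pos (by positivity)) key (by linarith)
    have h9 := ht4 (E + 2) (by linarith)
    rw [h8] at h9
    have h10 : 0 < 2 / (E + 2) := by positivity
    linarith
  · have h5 : ∀ w₁, w < w₁ → 2 / w₁ ≤ lowerDensity (relScales m n z t w) := by
      intro w₁ hw₁
      exact (ht4 w₁ (by linarith)).trans (rat_le_rel hm hn (by linarith) hw₁)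
    have hc : Tendsto (fun w₁ : ℝ => 2 / w₁) (𝓝[>] w) (𝓝 (2 / w)) := by
      have : ContinuousAt (fun w₁ : ℝ => 2 / w₁) w := by
        apply ContinuousAt.div continuousAt_const continuousAt_id
        show w ≠ 0
        linarith
      exact this.tendsto.mono_left nhdsWithin_le_nhds
    apply le_of_tendsto hc
    filter_upwards [self_mem_nhdsWithin] with w₁ hw₁
    exact h5 w₁ hw₁

end Pool.Agent.H595.Gel
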